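import Pool.Agent.H66.LieVar3

namespace Pool.Agent.Results.MP_b4a71d_al.Exists

open Pool.Agent.H66.LieVar

/-- Over every field of characteristic `0` and for every `d ≥ 1` (in particular `d = 6`) there is
a variety of Lie algebras with distributive subvariety lattice that has no basis of identities
of degree at most `d`. -/
theorem result (F : Type) [Field F] [CharZero F] (d : ℕ) (hd : 1 ≤ d) :
    ∃ V : Set (LA F), IsVariety F V ∧ Distributive F V ∧ ¬ DefinedByDeg F d V := by
  obtain ⟨d, rfl⟩ : ∃ e, d = e + 1 := ⟨d - 1, by omega⟩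
  exact ⟨VN F (d + 1), ⟨_, rfl⟩, VN_distrib _, VN_not d⟩

end Pool.Agent.Results.MP_b4a71d_al.Exists
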